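import Pool.Agent.LibDL68.Old.Detect
import Pool.Agent.LibDL68.Dual

open CategoryTheory AlgebraicGeometry Limits MonoidalCategory CartesianMonoidalCategory
open scoped TensorProduct

namespace Pool.Agent.LibDL68.Old

variable {k : Type} [Field k] {K : Type} [Field K] (T : CohTheory k K)

/-- The action of `Γ` on cohomology. -/
noncomputable def act {Γ : Type} [Group Γ] {V : Sch k} (ρ : Γ →* Aut V) (i : ℕ) :
    Γ →* Module.End K (T.H V i) where
  toFun g := T.pull (ρ g⁻¹).hom (isProper_iso _) i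
  map_one' := by
    refine LinearMap.ext fun x => ?_
    have : ∀ (f : V ⟶ V) (hf : IsProper f.left), f = 𝟙 V → T.pull f hf i x = x := by
      rintro f hf rfl
      exact T.pull_id V hf i x
    apply this
    rw [inv_one, map_one]; rfl
  map_mul' g h := by
    refine LinearMap.ext fun x => ?_
    have key : ∀ (f : V ⟶ V) (hf : IsProper f.left), f = (ρ g⁻¹).hom ≫ (ρ h⁻¹).hom →
        T.pull f hf i x = T.pull (ρ g⁻¹).hom (isProper_iso _) i
          (T.pull (ρ h⁻¹).hom (isProper_iso _) i x) := by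
      rintro f hf rfl
      exact T.pull_comp _ _ _ _ hf i x
    apply key
    rw [mul_inv_rev, map_mul]; rfl

instance instVarTensor (X Y : Sch k) [hX : IsVar X] [hY : IsVar Y] : IsVar (X ⊗ Y) := by
  have h1 := hX.sep
  have h2 := hX.ft
  have h3 := hX.qc
  have h1 := hY.sep
  have h2 := hY.ft
  have h3 := hY.qc
  refine ⟨?_, ?_, ?_⟩
  · dsimp; infer_instance
  · dsimp; infer_instance
  · dsimp; infer_instance

theorem isVar_of_proper (V : Sch k) (h : IsProper V.hom) : IsVar V :=
  ⟨inferInstance, inferInstance, inferInstance⟩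

theorem eq_zero_of_tmul {A B : Type*} [AddCommGroup A] [Module K A] [AddCommGroup B] [Module K B]
    {x : A} {w : B} (h : x ⊗ₜ[K] w = 0) (hw : w ≠ 0) : x = 0 := by
  obtain ⟨f, hf⟩ : ∃ f : Module.Dual K B, f w ≠ 0 := by
    by_contra hcon
    push_neg at hcon
    exact hw ((Module.forall_dual_apply_eq_zero_iff K w).1 hcon)
  have h1 := congrArg (fun z => TensorProduct.rid K A (f.lTensor A z)) h
  simp only [LinearMap.lTensor_tmul, TensorProduct.rid_tmul, map_zero] at h1
  exact (smul_eq_zero.1 h1).resolve_left hf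

variable [Finite k] [CharZero K]

theorem main (V W Q : Sch k) (n d : ℕ) (hV : IsProper V.hom)
    (hVn : SmoothOfRelativeDimension n V.hom) [IsVar W] (hW : SmoothOfRelativeDimension d W.hom)
    (hWg : GeometricallyIrreducible W.hom) {Γ : Type} [Group Γ] [Finite Γ] (ρ : Γ →* Aut V)
    (σ : Γ →* Aut W) (τ : Γ →* Aut ((V ⊗ V) ⊗ W)) (hτ : IsDiag ρ σ τ) [IsVar Q]
    (π : (V ⊗ V) ⊗ W ⟶ Q) (hπ : IsQuotient τ π)
    (hQ : Linear Q) (i j : ℕ) (hij : i + j = 2 * n) : Module.End.IsSemisimple (T.F V i) := by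
  have hVv : IsVar V := isVar_of_proper V hV
  have hVf : FiniteDimensional K (T.H V i) := T.finite V i
  obtain ⟨B, hB1, hB2, hB3, hB4⟩ := T.duality V n hV hVn i j hij
  obtain ⟨w, hw0, hw1, hw2⟩ := T.top W d hW hWg
  have hfin := hπ.finite
  have hπp : IsProper π.left := inferInstance
  obtain ⟨hq1, hq2⟩ := T.quotient τ π hπp hπ (i + j + 2 * d)
  have hqd : qq k K ^ d ≠ 0 := pow_ne_zero _ qq_ne
  -- the cross product with the fundamental class of `W`
  let κ : T.H V i ⊗[K] T.H V j →ₗ[K] T.H ((V ⊗ V) ⊗ W) (i + j + 2 * d) :=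
    (T.cross (V ⊗ V) W (i + j) (2 * d)) ∘ₗ
      ((TensorProduct.mk K (T.H (V ⊗ V) (i + j)) (T.H W (2 * d))).flip w) ∘ₗ
      (T.cross V V i j)
  have hκ : ∀ t, κ t = T.cross (V ⊗ V) W (i + j) (2 * d) (T.cross V V i j t ⊗ₜ w) := fun t => rfl
  have hκinj : ∀ t, κ t = 0 → t = 0 := by
    intro t ht
    rw [hκ] at ht
    have h1 : T.cross V V i j t ⊗ₜ[K] w = 0 :=
      T.cross_inj (V ⊗ V) W (i + j) (2 * d) (by rw [ht, map_zero])
    have h2 : T.cross V V i j t = 0 := eq_zero_of_tmul h1 hw0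
    exact T.cross_inj V V i j (by rw [h2, map_zero])
  have hcF : ∀ t, T.F (V ⊗ V) (i + j) (T.cross V V i j t) =
      T.cross V V i j (TensorProduct.map (T.F V i) (T.F V j) t) := by
    intro t
    induction t with
    | zero => simp
    | add a b ha hb => simp only [map_add, ha, hb]
    | tmul a b => rw [T.cross_F, TensorProduct.map_tmul]
  have hκF : ∀ t, T.F ((V ⊗ V) ⊗ W) (i + j + 2 * d) (κ t) =
      qq k K ^ d • κ (TensorProduct.map (T.F V i) (T.F V j) t) := by
    intro t
    rw [hκ, hκ, T.cross_F, hcF, hw1, TensorProduct.tmul_smul, map_smul]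
  have hcA : ∀ g t, T.pull (tensorIso (ρ g) (ρ g)).hom (isProper_iso _) (i + j)
      (T.cross V V i j t) =
      T.cross V V i j (TensorProduct.map (T.pull (ρ g).hom (isProper_iso _) i)
        (T.pull (ρ g).hom (isProper_iso _) j) t) := by
    intro g t
    induction t with
    | zero => simp
    | add a b ha hb => simp only [map_add, ha, hb]
    | tmul a b => rw [TensorProduct.map_tmul]; exact T.cross_aut V V i j a b (ρ g) (ρ g) _ _ _
  have hκA : ∀ g t, T.pull (τ g).hom (isProper_iso _) (i + j + 2 * d) (κ t) =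
      κ (TensorProduct.map (T.pull (ρ g).hom (isProper_iso _) i)
        (T.pull (ρ g).hom (isProper_iso _) j) t) := by
    intro g t
    have h1 := T.cross_aut (V ⊗ V) W (i + j) (2 * d) (T.cross V V i j t) w
      (tensorIso (ρ g) (ρ g)) (σ g) (isProper_iso _) (isProper_iso _)
      (isProper_iso (tensorIso (tensorIso (ρ g) (ρ g)) (σ g)))
    rw [hw2, hcA] at h1
    have key : ∀ (f : (V ⊗ V) ⊗ W ⟶ (V ⊗ V) ⊗ W) (hf : IsProper f.left),
        f = (tensorIso (tensorIso (ρ g) (ρ g)) (σ g)).hom →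
        T.pull f hf (i + j + 2 * d) (κ t) =
          T.pull (tensorIso (tensorIso (ρ g) (ρ g)) (σ g)).hom (isProper_iso _) _ (κ t) := by
      rintro f hf rfl; rfl
    rw [key _ _ (hτ g)]
    exact h1
  refine LA.semisimple_of_tensor B hB1 hB2 (act T ρ i) (act T ρ j) ?_ (T.F V i) (T.F V j)
    (qq k K ^ n) (pow_ne_zero _ qq_ne) hB3 ?_ ?_
  · intro g x y
    exact hB4 _ _ x y
  · intro g
    refine LinearMap.ext fun x => ?_
    exact T.pull_F _ _ i x
  · intro t ht hA2
    -- invariance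
    have hinv : ∀ g (hg : IsProper (τ g).hom.left),
        T.pull (τ g).hom hg (i + j + 2 * d) (κ t) = κ t := by
      intro g hg
      rw [hκA]
      have := ht g⁻¹
      have e1 : ∀ l, (act T ρ l) g⁻¹ = T.pull (ρ g).hom (isProper_iso _) l := by
        intro l
        have key : ∀ (f : V ⟶ V) (hf : IsProper f.left), f = (ρ g).hom →
            T.pull f hf l = T.pull (ρ g).hom (isProper_iso _) l := by
          rintro f hf rfl; rfl
        apply key
        rw [inv_inv]
      rw [e1, e1] at this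
      rw [this]
    obtain ⟨z, hz⟩ := hq2 (κ t) hinv
    set P := TensorProduct.map (T.F V i) (T.F V j) with hP
    have hstep : ∀ s, T.F ((V ⊗ V) ⊗ W) (i + j + 2 * d) (κ s) - qq k K ^ (n + d) • κ s =
        qq k K ^ d • κ (P s - qq k K ^ n • s) := by
      intro s
      rw [hκF, map_sub, map_smul, smul_sub, smul_smul, ← pow_add, add_comm d n]
    have hzE : IsE T (n + d) z := by
      refine ⟨2, hq1 ?_⟩
      have hc := pow_comm (T.F Q (i + j + 2 * d)) (T.F ((V ⊗ V) ⊗ W) (i + j + 2 * d))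
        (T.pull π hπp (i + j + 2 * d)) (qq k K ^ (n + d)) (fun x => T.pull_F π hπp _ x) 2 z
      rw [hc, hz, map_zero, sq, Module.End.mul_apply]
      have e1 : ∀ y, (T.F ((V ⊗ V) ⊗ W) (i + j + 2 * d) - qq k K ^ (n + d) •
          (1 : Module.End K (T.H ((V ⊗ V) ⊗ W) (i + j + 2 * d)))) y =
          T.F ((V ⊗ V) ⊗ W) (i + j + 2 * d) y - qq k K ^ (n + d) • y := by
        intro y; simp
      rw [e1, e1, hstep, map_smul, smul_comm (qq k K ^ (n + d)), ← smul_sub, hstep, hA2,
        map_zero, smul_zero, smul_zero]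
    have hzF := linear_scalar T hQ (n + d) (i + j + 2 * d) (by omega) z hzE
    have h3 : T.F ((V ⊗ V) ⊗ W) (i + j + 2 * d) (κ t) - qq k K ^ (n + d) • κ t = 0 := by
      rw [← hz, ← T.pull_F, hzF, map_smul, sub_self]
    rw [hstep] at h3
    exact hκinj _ ((smul_eq_zero.1 h3).resolve_left hqd)

end Pool.Agent.LibDL68.Old
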