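import Pool.Agent.LibDL68.Old.Defs

open CategoryTheory AlgebraicGeometry Limits MonoidalCategory CartesianMonoidalCategory

namespace Pool.Agent.LibDL68.Old.CohTheory

variable {k : Type} [Field k] {K : Type} [Field K] (T : CohTheory k K)

theorem pull_F {X Y : Sch k} (f : X ⟶ Y) (hf : IsProper f.left) (i : ℕ) (y : T.H Y i) :
    T.pull f hf i (T.F Y i y) = T.F X i (T.pull f hf i y) := T.functorial.pull_F f hf i y

theorem pull_id (X : Sch k) (h : IsProper (𝟙 X : X ⟶ X).left) (i : ℕ) (x : T.H X i) :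
    T.pull (𝟙 X) h i x = x := T.functorial.pull_id X h i x

theorem pull_comp {X Y Z : Sch k} (f : X ⟶ Y) (g : Y ⟶ Z) (hf : IsProper f.left)
    (hg : IsProper g.left) (hfg : IsProper (f ≫ g).left) (i : ℕ) (z : T.H Z i) :
    T.pull (f ≫ g) hfg i z = T.pull f hf i (T.pull g hg i z) :=
  T.functorial.pull_comp f g hf hg hfg i z

theorem push_F {U X : Sch k} (j : U ⟶ X) (hj : IsOpenImmersion j.left) (i : ℕ) (u : T.H U i) :
    T.push j hj i (T.F U i u) = T.F X i (T.push j hj i u) := T.functorial.push_F j hj i u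

theorem bd_F {Z X U : Sch k} (i : Z ⟶ X) (j : U ⟶ X) (h : OpenClosed i j) (n : ℕ)
    (z : T.H Z n) : T.bd i j h n (T.F Z n z) = T.F U (n + 1) (T.bd i j h n z) :=
  T.functorial.bd_F i j h n z

theorem exact_mid {Z X U : Sch k} (i : Z ⟶ X) (j : U ⟶ X) (h : OpenClosed i j) [IsVar X]
    (hi : IsProper i.left) (n : ℕ) (x : T.H X n) : T.pull i hi n x = 0 →
      ∃ u, T.push j h.opn n u = x := T.exact.mid i j h hi n x

theorem exact_open {Z X U : Sch k} (i : Z ⟶ X) (j : U ⟶ X) (h : OpenClosed i j) [IsVar X]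
    (n : ℕ) (u : T.H U (n + 1)) : T.push j h.opn (n + 1) u = 0 → ∃ z, T.bd i j h n z = u :=
  T.exact.opn i j h n u

theorem exact_zero {Z X U : Sch k} (i : Z ⟶ X) (j : U ⟶ X) (h : OpenClosed i j) [IsVar X]
    (u : T.H U 0) : T.push j h.opn 0 u = 0 → u = 0 := T.exact.zero i j h u

theorem finite (X : Sch k) [IsVar X] (i : ℕ) : Module.Finite K (T.H X i) := T.points.finite X i
theorem empty (X : Sch k) (i : ℕ) (h : IsEmpty X.left) : Subsingleton (T.H X i) :=
  T.points.empty X i h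
theorem point_pos (X : Sch k) (i : ℕ) (h : IsIso X.hom) : Subsingleton (T.H X (i + 1)) :=
  T.points.point_pos X i h
theorem point_F (X : Sch k) (x : T.H X 0) (h : IsIso X.hom) : T.F X 0 x = x :=
  T.points.point_F X x h
theorem line_zero (X : Sch k) [IsVar X] : Subsingleton (T.H (line X) 0) := T.lines.zero X
theorem line_one (X : Sch k) [IsVar X] : Subsingleton (T.H (line X) 1) := T.lines.one X
theorem line_iso (X : Sch k) [IsVar X] (i : ℕ) : ∃ e : T.H X i ≃ₗ[K] T.H (line X) (i + 2),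
    ∀ x, T.F (line X) (i + 2) (e x) = (Nat.card k : K) • e (T.F X i x) := T.lines.iso X i

theorem trace {U X : Sch k} (j : U ⟶ X) (hj : IsOpenImmersion j.left) [IsVar X] (d : ℕ)
    (hU : Cell d U) : ∃ tr : T.H X (2 * d) →ₗ[K] K,
      (∀ x, tr (T.F X (2 * d) x) = (Nat.card k : K) ^ d * tr x) ∧
      ∀ u, tr (T.push j hj (2 * d) u) = 0 → u = 0 := T.tr j hj d hU

theorem quotient {Γ : Type} [Group Γ] [Finite Γ] {Y Q : Sch k} [IsVar Q] (ρ : Γ →* Aut Y)
    (π : Y ⟶ Q) (hπ : IsProper π.left) (h : IsQuotient ρ π) (i : ℕ) :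
    Function.Injective (T.pull π hπ i) ∧
    ∀ y : T.H Y i, (∀ g (hg : IsProper (ρ g).hom.left), T.pull (ρ g).hom hg i y = y) →
      ∃ z, T.pull π hπ i z = y := T.quot ρ π hπ h i

theorem cross_inj (X Y : Sch k) [IsVar X] [IsVar Y] (i j : ℕ) :
    Function.Injective (T.cross X Y i j) := T.crs.inj X Y i j
theorem cross_F (X Y : Sch k) [IsVar X] [IsVar Y] (i j : ℕ) (x : T.H X i) (y : T.H Y j) :
    T.F (X ⊗ Y) (i + j) (T.cross X Y i j (x ⊗ₜ y)) = T.cross X Y i j (T.F X i x ⊗ₜ T.F Y j y) :=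
  T.crs.frob X Y i j x y
theorem cross_aut (X Y : Sch k) [IsVar X] [IsVar Y] (i j : ℕ) (x : T.H X i) (y : T.H Y j)
    (f : X ≅ X) (g : Y ≅ Y) (hf : IsProper f.hom.left) (hg : IsProper g.hom.left)
    (hfg : IsProper (f.hom ⊗ₘ g.hom).left) :
    T.pull (f.hom ⊗ₘ g.hom) hfg (i + j) (T.cross X Y i j (x ⊗ₜ y)) =
      T.cross X Y i j (T.pull f.hom hf i x ⊗ₜ T.pull g.hom hg j y) :=
  T.crs.aut X Y i j x y f g hf hg hfg

theorem duality (V : Sch k) (n : ℕ) (h1 : IsProper V.hom)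
    (h2 : SmoothOfRelativeDimension n V.hom) (i j : ℕ) (h : i + j = 2 * n) :
    ∃ B : T.H V i →ₗ[K] T.H V j →ₗ[K] K,
      Function.Bijective B ∧ Function.Bijective B.flip ∧
      (∀ x y, B (T.F V i x) (T.F V j y) = (Nat.card k : K) ^ n * B x y) ∧
      ∀ (g : V ≅ V) (hg : IsProper g.hom.left) x y,
        B (T.pull g.hom hg i x) (T.pull g.hom hg j y) = B x y := T.dual V n h1 h2 i j h

theorem top (W : Sch k) (d : ℕ) [IsVar W] (h1 : SmoothOfRelativeDimension d W.hom)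
    (h2 : GeometricallyIrreducible W.hom) : ∃ w : T.H W (2 * d), w ≠ 0 ∧
      T.F W (2 * d) w = (Nat.card k : K) ^ d • w ∧
      ∀ (g : W ≅ W) (hg : IsProper g.hom.left), T.pull g.hom hg (2 * d) w = w :=
  T.fund W d h1 h2

end Pool.Agent.LibDL68.Old.CohTheory
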