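import Pool.Agent.LibDL68.Old.Api

/-! Generalised eigenspaces of Frobenius, cells, and the detection lemma. -/

open CategoryTheory AlgebraicGeometry Limits MonoidalCategory CartesianMonoidalCategory Polynomial

namespace Pool.Agent.LibDL68.Old

section LinAlg

variable {K A B : Type*} [Field K] [AddCommGroup A] [Module K A] [AddCommGroup B] [Module K B]

/-- membership in the generalised eigenspace -/
def GE (f : Module.End K A) (μ : K) (x : A) : Prop := ∃ r : ℕ, ((f - μ • (1 : Module.End K A)) ^ r) x = 0

theorem pow_comm (f : Module.End K A) (g : Module.End K B) (h : A →ₗ[K] B) (μ : K)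
    (hc : ∀ x, h (f x) = g (h x)) (r : ℕ) (x : A) :
    h (((f - μ • (1 : Module.End K A)) ^ r) x) = ((g - μ • (1 : Module.End K B)) ^ r) (h x) := by
  induction r generalizing x with
  | zero => simp
  | succ r ih =>
    rw [pow_succ, pow_succ, Module.End.mul_apply, Module.End.mul_apply, ih]
    congr 1
    simp [hc]

theorem GE.map {f : Module.End K A} {g : Module.End K B} {μ : K} (h : A →ₗ[K] B)
    (hc : ∀ x, h (f x) = g (h x)) {x : A} (hx : GE f μ x) : GE g μ (h x) := by
  obtain ⟨r, hr⟩ := hx
  exact ⟨r, by rw [← pow_comm f g h μ hc, hr, map_zero]⟩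

theorem aeval_comm (f : Module.End K A) (g : Module.End K B) (h : A →ₗ[K] B)
    (hc : ∀ x, h (f x) = g (h x)) (p : K[X]) (x : A) :
    h (aeval f p x) = aeval g p (h x) := by
  induction p using Polynomial.induction_on' generalizing x with
  | add p q hp hq => simp [hp, hq]
  | monomial n a =>
    rw [aeval_monomial, aeval_monomial]
    simp only [Module.End.mul_apply, Module.algebraMap_end_apply, map_smul]
    congr 1
    induction n generalizing x with
    | zero => simp
    | succ n ih => rw [pow_succ, pow_succ, Module.End.mul_apply, Module.End.mul_apply, ih, hc]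

/-- Lifting of generalised eigenvectors through an equivariant map. -/
theorem GE.lift [FiniteDimensional K A] {f : Module.End K A} {g : Module.End K B} {μ : K}
    (h : A →ₗ[K] B) (hc : ∀ x, h (f x) = g (h x)) {y : B} (hy : GE g μ y) {x : A}
    (hx : h x = y) : ∃ x', GE f μ x' ∧ h x' = y := by
  obtain ⟨r, hr⟩ := hy
  obtain ⟨s, hs⟩ : ∃ s, s = (minpoly K f).rootMultiplicity μ := ⟨_, rfl⟩
  have hm : minpoly K f ≠ 0 := minpoly.ne_zero (Algebra.IsIntegral.isIntegral f)
  obtain ⟨M, hM, hdvd⟩ := Polynomial.exists_eq_pow_rootMultiplicity_mul_and_not_dvd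
    (minpoly K f) hm μ
  have hcop : IsCoprime ((X - C μ) ^ r) M :=
    ((irreducible_X_sub_C μ).coprime_iff_not_dvd.2 hdvd).pow_left
  obtain ⟨u, v, huv⟩ := hcop
  refine ⟨aeval f (v * M) x, ⟨(minpoly K f).rootMultiplicity μ, ?_⟩, ?_⟩
  · have e1 : (f - μ • (1 : Module.End K A)) = aeval f (X - C μ) := by
      rw [map_sub, aeval_X, aeval_C]; rfl
    rw [e1, ← map_pow, ← Module.End.mul_apply, ← map_mul]
    have : (X - C μ) ^ (minpoly K f).rootMultiplicity μ * (v * M) = v * minpoly K f := by
      conv_rhs => rw [hM]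
      ring
    rw [this, map_mul, minpoly.aeval, mul_zero]; rfl
  · rw [aeval_comm f g h hc, hx]
    have : v * M = 1 - u * (X - C μ) ^ r := by rw [← huv]; ring
    rw [this, map_sub, map_one, map_mul, LinearMap.sub_apply, Module.End.mul_apply]
    have e1 : aeval g ((X - C μ) ^ r) = (g - μ • (1 : Module.End K B)) ^ r := by
      rw [map_pow, map_sub, aeval_X, aeval_C]; rfl
    rw [e1, hr, map_zero]; simp

end LinAlg

variable {k : Type} [Field k] {K : Type} [Field K]

instance instVarLine (X : Sch k) [hX : IsVar X] : IsVar (line X) where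
  sep := by
    have := hX.sep
    show IsSeparated ((𝔸(PUnit.{1}; X.left) ↘ X.left) ≫ X.hom)
    infer_instance
  ft := by
    have := hX.ft
    show LocallyOfFiniteType ((𝔸(PUnit.{1}; X.left) ↘ X.left) ≫ X.hom)
    infer_instance
  qc := by
    have := hX.qc
    show QuasiCompact ((𝔸(PUnit.{1}; X.left) ↘ X.left) ≫ X.hom)
    infer_instance

theorem isVar_of_closed {Z X : Sch k} (i : Z ⟶ X) [hX : IsVar X] (hi : IsClosedImmersion i.left) :
    IsVar Z := by
  have h1 := hX.sep
  have h2 := hX.ft
  have h3 := hX.qc
  have e : i.left ≫ X.hom = Z.hom := Over.w i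
  exact ⟨by rw [← e]; infer_instance, by rw [← e]; infer_instance, by rw [← e]; infer_instance⟩

theorem isVar_of_open {U X : Sch k} (j : U ⟶ X) [hX : IsVar X] (hj : IsOpenImmersion j.left) :
    IsVar U := by
  have h1 := hX.sep
  have h2 := hX.ft
  have h3 := hX.qc
  have e : j.left ≫ X.hom = U.hom := Over.w j
  have hN : IsLocallyNoetherian X.left := by
    have : IsLocallyNoetherian (Spec (CommRingCat.of k)) := inferInstance
    exact LocallyOfFiniteType.isLocallyNoetherian X.hom
  have : QuasiCompact j.left := inferInstance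
  exact ⟨by rw [← e]; infer_instance, by rw [← e]; infer_instance, by rw [← e]; infer_instance⟩

theorem isVar_of_iso {X Y : Sch k} (e : Y ≅ X) [hX : IsVar X] : IsVar Y :=
  isVar_of_open e.hom (inferInstance : IsOpenImmersion e.hom.left)

theorem Cell.isVar {d : ℕ} {U : Sch k} (h : Cell d U) : IsVar U := by
  induction h with
  | point X hX => exact ⟨inferInstance, inferInstance, inferInstance⟩
  | line d X Y _ e ih =>
    obtain ⟨e⟩ := e
    exact isVar_of_iso e
  | torus d X U s j _ _ h ih => exact isVar_of_open j h.opn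

end Pool.Agent.LibDL68.Old
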