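import Mathlib

/-!
# Cohomology with compact supports of varieties over a finite field

The schemes are schemes of Mathlib over `Spec k`, `k` a finite field.  `CohTheory k K` lists the
formal properties of `X ↦ H_c^i(X ⊗ k̄, K)`, `K = ℚ_ℓ`, with the Frobenius `F`, that are used.
-/

open CategoryTheory AlgebraicGeometry Limits MonoidalCategory CartesianMonoidalCategory

namespace Pool.Agent.LibDL68.Old

/-- Schemes over the field `k`. -/
abbrev Sch (k : Type) [Field k] := Over (Spec (CommRingCat.of k))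

variable {k : Type} [Field k]

/-- Separated of finite type over `k`. -/
class IsVar (X : Sch k) : Prop where
  sep : IsSeparated X.hom
  ft : LocallyOfFiniteType X.hom
  qc : QuasiCompact X.hom

/-- `i : Z ⟶ X` is a closed immersion, `j : U ⟶ X` an open immersion with image the
complement of the image of `i`. -/
structure OpenClosed {Z X U : Sch k} (i : Z ⟶ X) (j : U ⟶ X) : Prop where
  closed : IsClosedImmersion i.left
  opn : IsOpenImmersion j.left
  compl : Set.range i.left = (Set.range j.left)ᶜ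

/-- The affine line over `X`. -/
noncomputable def line (X : Sch k) : Sch k :=
  Over.mk ((𝔸(PUnit.{1}; X.left) ↘ X.left) ≫ X.hom)

/-- The projection of the affine line over `X` to `X`. -/
noncomputable def lineProj (X : Sch k) : line X ⟶ X :=
  Over.homMk (𝔸(PUnit.{1}; X.left) ↘ X.left)

/-- Cells `𝔸^a × 𝔾_m^b` of dimension `a + b = d`, up to isomorphism: built from `Spec k` by
`X ↦ X × 𝔸¹` and `X ↦ X × 𝔾_m` = the complement of a section `s` of `X × 𝔸¹ ⟶ X`. -/
inductive Cell : ℕ → Sch k → Prop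
  | point (X : Sch k) : IsIso X.hom → Cell 0 X
  | line (d : ℕ) (X Y : Sch k) : Cell d X → Nonempty (Y ≅ line X) → Cell (d + 1) Y
  | torus (d : ℕ) (X U : Sch k) (s : X ⟶ line X) (j : U ⟶ line X) : Cell d X →
      s ≫ lineProj X = 𝟙 X → OpenClosed s j → Cell (d + 1) U

/-- Linear varieties: finite successive unions of a closed linear subvariety and an open cell. -/
inductive Linear : Sch k → Prop
  | empty (X : Sch k) : IsEmpty X.left → Linear X
  | step (d : ℕ) (Z X U : Sch k) (i : Z ⟶ X) (j : U ⟶ X) : OpenClosed i j → Linear Z →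
      Cell d U → Linear X

/-- `π : Y ⟶ Q` is a quotient (up to universal homeomorphism) by the finite group `Γ` acting
through `ρ`: finite, surjective, invariant, and `Γ` is transitive on the geometric points of `Y`
over a geometric point of `Q`. -/
structure IsQuotient {Γ : Type} [Group Γ] {Y Q : Sch k} (ρ : Γ →* Aut Y) (π : Y ⟶ Q) :
    Prop where
  finite : IsFinite π.left
  surj : Surjective π.left
  inv : ∀ g, (ρ g).hom ≫ π = π
  trans : ∀ (Ω : Type) [Field Ω] [IsAlgClosed Ω] (a b : Spec (CommRingCat.of Ω) ⟶ Y.left),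
    a ≫ π.left = b ≫ π.left → ∃ g, b = a ≫ (ρ g).hom.left

/-- The diagonal action of `Γ` on `V × V × W`: `τ g = ρ g × ρ g × σ g`. -/
def IsDiag {Γ : Type} [Group Γ] {V W : Sch k} (ρ : Γ →* Aut V) (σ : Γ →* Aut W)
    (τ : Γ →* Aut ((V ⊗ V) ⊗ W)) : Prop :=
  ∀ g, (τ g).hom = ((ρ g).hom ⊗ₘ (ρ g).hom) ⊗ₘ (σ g).hom

/-- The data of a cohomology theory with compact supports: the `K`-spaces
`H X i = H_c^i(X ⊗ k̄, K)`, the Frobenius `F`, pull back along proper morphisms, extension by zero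
along open immersions, boundary maps, and cross products. -/
structure CohData (k : Type) [Field k] (K : Type) [Field K] where
  /-- `H_c^i(X ⊗ k̄, K)` -/
  H : Sch k → ℕ → Type
  instAdd : ∀ X i, AddCommGroup (H X i)
  instMod : ∀ X i, Module K (H X i)
  /-- Frobenius -/
  F : ∀ X i, H X i →ₗ[K] H X i
  /-- pull back along a proper morphism -/
  pull : ∀ {X Y : Sch k} (f : X ⟶ Y), IsProper f.left → ∀ i, H Y i →ₗ[K] H X i
  /-- extension by zero along an open immersion -/
  push : ∀ {U X : Sch k} (j : U ⟶ X), IsOpenImmersion j.left → ∀ i, H U i →ₗ[K] H X i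
  /-- the boundary map of the long exact sequence -/
  bd : ∀ {Z X U : Sch k} (i : Z ⟶ X) (j : U ⟶ X), OpenClosed i j → ∀ n, H Z n →ₗ[K] H U (n + 1)
  /-- cross product -/
  cross : ∀ (X Y : Sch k) (i j : ℕ), TensorProduct K (H X i) (H Y j) →ₗ[K] H (X ⊗ Y) (i + j)

attribute [instance] CohData.instAdd CohData.instMod

namespace CohData

variable {K : Type} [Field K] (T : CohData k K)

/-- Functoriality for proper morphisms; Frobenius commutes with the maps of the theory. -/
structure Functorial : Prop where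
  pull_F : ∀ {X Y : Sch k} (f : X ⟶ Y) (hf : IsProper f.left) (i : ℕ) (y : T.H Y i),
    T.pull f hf i (T.F Y i y) = T.F X i (T.pull f hf i y)
  pull_id : ∀ (X : Sch k) (h : IsProper (𝟙 X : X ⟶ X).left) (i : ℕ) (x : T.H X i),
    T.pull (𝟙 X) h i x = x
  pull_comp : ∀ {X Y Z : Sch k} (f : X ⟶ Y) (g : Y ⟶ Z) (hf : IsProper f.left)
    (hg : IsProper g.left) (hfg : IsProper (f ≫ g).left) (i : ℕ) (z : T.H Z i),
    T.pull (f ≫ g) hfg i z = T.pull f hf i (T.pull g hg i z)
  push_F : ∀ {U X : Sch k} (j : U ⟶ X) (hj : IsOpenImmersion j.left) (i : ℕ) (u : T.H U i),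
    T.push j hj i (T.F U i u) = T.F X i (T.push j hj i u)
  bd_F : ∀ {Z X U : Sch k} (i : Z ⟶ X) (j : U ⟶ X) (h : OpenClosed i j) (n : ℕ) (z : T.H Z n),
    T.bd i j h n (T.F Z n z) = T.F U (n + 1) (T.bd i j h n z)

/-- The exact sequence `H_c^n(Z) → H_c^(n+1)(U) → H_c^(n+1)(X) → H_c^(n+1)(Z)`, and
`0 → H_c^0(U) → H_c^0(X)`. -/
structure Exact : Prop where
  mid : ∀ {Z X U : Sch k} (i : Z ⟶ X) (j : U ⟶ X) (h : OpenClosed i j) [IsVar X]
    (hi : IsProper i.left) (n : ℕ) (x : T.H X n), T.pull i hi n x = 0 →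
      ∃ u, T.push j h.opn n u = x
  opn : ∀ {Z X U : Sch k} (i : Z ⟶ X) (j : U ⟶ X) (h : OpenClosed i j) [IsVar X]
    (n : ℕ) (u : T.H U (n + 1)), T.push j h.opn (n + 1) u = 0 → ∃ z, T.bd i j h n z = u
  zero : ∀ {Z X U : Sch k} (i : Z ⟶ X) (j : U ⟶ X) (h : OpenClosed i j) [IsVar X]
    (u : T.H U 0), T.push j h.opn 0 u = 0 → u = 0

/-- Finiteness; the cohomology of the empty scheme and of the point. -/
structure Points : Prop where
  finite : ∀ (X : Sch k) [IsVar X] (i : ℕ), Module.Finite K (T.H X i)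
  empty : ∀ (X : Sch k) (i : ℕ), IsEmpty X.left → Subsingleton (T.H X i)
  point_pos : ∀ (X : Sch k) (i : ℕ), IsIso X.hom → Subsingleton (T.H X (i + 1))
  point_F : ∀ (X : Sch k) (x : T.H X 0), IsIso X.hom → T.F X 0 x = x

/-- `H_c^(i+2)(X × 𝔸¹) = H_c^i(X)(-1)`, and `H_c^0`, `H_c^1` of `X × 𝔸¹` vanish. -/
structure Lines : Prop where
  zero : ∀ (X : Sch k) [IsVar X], Subsingleton (T.H (line X) 0)
  one : ∀ (X : Sch k) [IsVar X], Subsingleton (T.H (line X) 1)
  iso : ∀ (X : Sch k) [IsVar X] (i : ℕ), ∃ e : T.H X i ≃ₗ[K] T.H (line X) (i + 2),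
    ∀ x, T.F (line X) (i + 2) (e x) = (Nat.card k : K) • e (T.F X i x)

/-- The closure in `X` of an open cell `U` of dimension `d` has a trace map
`H_c^(2d)(X) → K(-d)`, which on `U` is the isomorphism `H_c^(2d)(U) = K(-d)`. -/
def Trace : Prop :=
  ∀ {U X : Sch k} (j : U ⟶ X) (hj : IsOpenImmersion j.left) [IsVar X] (d : ℕ),
    Cell d U → ∃ tr : T.H X (2 * d) →ₗ[K] K,
      (∀ x, tr (T.F X (2 * d) x) = (Nat.card k : K) ^ d * tr x) ∧
      ∀ u, tr (T.push j hj (2 * d) u) = 0 → u = 0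

/-- `H_c^i(Y/Γ) = H_c^i(Y)^Γ` for a finite group `Γ`. -/
def Quotient : Prop :=
  ∀ {Γ : Type} [Group Γ] [Finite Γ] {Y Q : Sch k} [IsVar Q] (ρ : Γ →* Aut Y)
    (π : Y ⟶ Q) (hπ : IsProper π.left), IsQuotient ρ π → ∀ i,
    Function.Injective (T.pull π hπ i) ∧
    ∀ y : T.H Y i, (∀ g (hg : IsProper (ρ g).hom.left), T.pull (ρ g).hom hg i y = y) →
      ∃ z, T.pull π hπ i z = y

/-- The cross product `H_c^i(X) ⊗ H_c^j(Y) → H_c^(i+j)(X × Y)` is injective and compatible with
Frobenius and with automorphisms. -/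
structure Cross : Prop where
  inj : ∀ (X Y : Sch k) [IsVar X] [IsVar Y] (i j : ℕ), Function.Injective (T.cross X Y i j)
  frob : ∀ (X Y : Sch k) [IsVar X] [IsVar Y] (i j : ℕ) (x : T.H X i) (y : T.H Y j),
    T.F (X ⊗ Y) (i + j) (T.cross X Y i j (x ⊗ₜ y)) = T.cross X Y i j (T.F X i x ⊗ₜ T.F Y j y)
  aut : ∀ (X Y : Sch k) [IsVar X] [IsVar Y] (i j : ℕ) (x : T.H X i) (y : T.H Y j)
    (f : X ≅ X) (g : Y ≅ Y) (hf : IsProper f.hom.left) (hg : IsProper g.hom.left)
    (hfg : IsProper (f.hom ⊗ₘ g.hom).left),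
    T.pull (f.hom ⊗ₘ g.hom) hfg (i + j) (T.cross X Y i j (x ⊗ₜ y)) =
      T.cross X Y i j (T.pull f.hom hf i x ⊗ₜ T.pull g.hom hg j y)

/-- Poincare duality for `V` proper and smooth of pure dimension `n`. -/
def Duality : Prop :=
  ∀ (V : Sch k) (n : ℕ), IsProper V.hom → SmoothOfRelativeDimension n V.hom →
    ∀ i j, i + j = 2 * n → ∃ B : T.H V i →ₗ[K] T.H V j →ₗ[K] K,
      Function.Bijective B ∧ Function.Bijective B.flip ∧
      (∀ x y, B (T.F V i x) (T.F V j y) = (Nat.card k : K) ^ n * B x y) ∧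
      ∀ (g : V ≅ V) (hg : IsProper g.hom.left) x y,
        B (T.pull g.hom hg i x) (T.pull g.hom hg j y) = B x y

/-- `H_c^(2d)(W) = K(-d)`, with trivial action of the automorphisms, for `W` smooth and
geometrically irreducible of dimension `d`. -/
def Top : Prop :=
  ∀ (W : Sch k) (d : ℕ) [IsVar W], SmoothOfRelativeDimension d W.hom →
    GeometricallyIrreducible W.hom → ∃ w : T.H W (2 * d), w ≠ 0 ∧
      T.F W (2 * d) w = (Nat.card k : K) ^ d • w ∧
      ∀ (g : W ≅ W) (hg : IsProper g.hom.left), T.pull g.hom hg (2 * d) w = w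

end CohData

/-- The formal properties of `H_c^i(X ⊗ k̄, K)` and of its Frobenius endomorphism `F`
(`q = #k`) which are used. -/
structure CohTheory (k : Type) [Field k] (K : Type) [Field K] extends CohData k K where
  functorial : toCohData.Functorial
  exact : toCohData.Exact
  points : toCohData.Points
  lines : toCohData.Lines
  tr : toCohData.Trace
  quot : toCohData.Quotient
  crs : toCohData.Cross
  dual : toCohData.Duality
  fund : toCohData.Top

end Pool.Agent.LibDL68.Old
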