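import Pool.Agent.LibDL68.Old.Cells

/-! Cohomology of cells and the detection lemma. -/

open CategoryTheory AlgebraicGeometry Limits MonoidalCategory CartesianMonoidalCategory

namespace Pool.Agent.LibDL68.Old

variable {k : Type} [Field k] {K : Type} [Field K] (T : CohTheory k K)

/-- the number of elements of `k`, in `K` -/
noncomputable abbrev qq (k K : Type) [Field K] : K := (Nat.card k : K)

/-- `x` lies in the generalised `q^m`-eigenspace of Frobenius. -/
def IsE {X : Sch k} {i : ℕ} (m : ℕ) (x : T.H X i) : Prop := GE (T.F X i) (qq k K ^ m) x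

instance isProper_iso {X Y : Sch k} (e : X ≅ Y) : IsProper e.hom.left := inferInstance

theorem pull_iso_inj {X Y : Sch k} (e : X ≅ Y) (i : ℕ) (x : T.H X i)
    (h : T.pull e.inv (isProper_iso e.symm) i x = 0) : x = 0 := by
  have hp : IsProper (e.hom ≫ e.inv).left := by rw [e.hom_inv_id]; infer_instance
  have h1 : T.pull (e.hom ≫ e.inv) hp i x = 0 := by
    rw [T.pull_comp e.hom e.inv (isProper_iso e) (isProper_iso e.symm) hp, h, map_zero]
  have h2 : T.pull (e.hom ≫ e.inv) hp i x = x := by
    have : ∀ (f : X ⟶ X) (hf : IsProper f.left), f = 𝟙 X → T.pull f hf i x = x := by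
      rintro f hf rfl
      exact T.pull_id X hf i x
    exact this _ hp e.hom_inv_id
  rw [← h2, h1]

theorem GE_of_scalar {A : Type*} [AddCommGroup A] [Module K A] (f : Module.End K A) (μ ν : K)
    (hμν : μ ≠ ν) (hf : ∀ x, f x = ν • x) (x : A) (hx : GE f μ x) : x = 0 := by
  obtain ⟨r, hr⟩ := hx
  have : ∀ r : ℕ, ∀ x : A, ((f - μ • (1 : Module.End K A)) ^ r) x = (ν - μ) ^ r • x := by
    intro r
    induction r with
    | zero => intro x; simp
    | succ r ih =>
      intro x
      rw [pow_succ, Module.End.mul_apply, ih]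
      simp only [LinearMap.sub_apply, LinearMap.smul_apply, Module.End.one_apply, hf]
      rw [← sub_smul, smul_smul, pow_succ]
  rw [this] at hr
  exact (smul_eq_zero.1 hr).resolve_left (pow_ne_zero _ (sub_ne_zero.2 hμν.symm))

theorem GE_scale {A B : Type*} [AddCommGroup A] [Module K A] [AddCommGroup B] [Module K B]
    (f : Module.End K A) (g : Module.End K B) (e : A ≃ₗ[K] B) (c μ : K) (hc : c ≠ 0)
    (h : ∀ x, g (e x) = c • e (f x)) (x : A) (hx : GE g (c * μ) (e x)) : GE f μ x := by
  obtain ⟨r, hr⟩ := hx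
  refine ⟨r, ?_⟩
  have key : ∀ r : ℕ, ∀ x : A, ((g - (c * μ) • (1 : Module.End K B)) ^ r) (e x) =
      c ^ r • e (((f - μ • (1 : Module.End K A)) ^ r) x) := by
    intro r
    induction r with
    | zero => intro x; simp
    | succ r ih =>
      intro x
      have h1 : (g - (c * μ) • (1 : Module.End K B)) (e x) =
          c • e ((f - μ • (1 : Module.End K A)) x) := by
        simp only [LinearMap.sub_apply, LinearMap.smul_apply, Module.End.one_apply, h, map_sub,
          map_smul, smul_sub, smul_smul]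
      rw [pow_succ, Module.End.mul_apply, h1, map_smul, ih, pow_succ (f - μ • _),
        Module.End.mul_apply, smul_smul, pow_succ' c]
  rw [key] at hr
  have := (smul_eq_zero.1 hr).resolve_left (pow_ne_zero _ hc)
  exact (LinearEquiv.map_eq_zero_iff e).1 this

variable [Finite k] [CharZero K]

omit [Finite k] in
theorem qq_ne [Finite k] : qq k K ≠ 0 := by
  have : Nat.card k ≠ 0 := Nat.card_pos.ne'
  exact_mod_cast this

theorem qq_pow_ne_one (m : ℕ) (hm : m ≠ 0) : qq k K ^ m ≠ 1 := by
  have h1 : 1 < Nat.card k := Finite.one_lt_card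
  have h2 : Nat.card k ^ m ≠ 1 := (Nat.one_lt_pow hm h1).ne'
  intro h
  apply h2
  have : ((Nat.card k ^ m : ℕ) : K) = ((1 : ℕ) : K) := by push_cast; exact h
  exact_mod_cast this

/-- line: generalised eigenvectors -/
theorem line_GE (X : Sch k) [IsVar X] (e : ℕ)
    (ha : ∀ i m : ℕ, i < 2 * m → ∀ x : T.H X i, IsE T m x → x = 0)
    (hb : ∀ m : ℕ, m ≠ e → ∀ x : T.H X (2 * m), IsE T m x → x = 0) :
    (∀ i m : ℕ, i < 2 * m → ∀ x : T.H (line X) i, IsE T m x → x = 0) ∧
    (∀ m : ℕ, m ≠ e + 1 → ∀ x : T.H (line X) (2 * m), IsE T m x → x = 0) := by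
  constructor
  · intro i m him x hx
    match i, x, hx with
    | 0, x, _ => exact @Subsingleton.elim _ (T.line_zero X) x 0
    | 1, x, _ => exact @Subsingleton.elim _ (T.line_one X) x 0
    | i + 2, x, hx =>
      obtain ⟨m, rfl⟩ : ∃ m', m = m' + 1 := ⟨m - 1, by omega⟩
      obtain ⟨φ, hφ⟩ := T.line_iso X i
      obtain ⟨y, rfl⟩ := φ.surjective x
      have : GE (T.F X i) (qq k K ^ m) y := by
        refine GE_scale (T.F X i) (T.F (line X) (i + 2)) φ (qq k K) _ qq_ne hφ y ?_
        have hx' := hx
        unfold IsE at hx'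
        rw [pow_succ'] at hx'
        exact hx'
      rw [ha i m (by omega) y this, map_zero]
  · intro m hm x hx
    match m, x, hx with
    | 0, x, _ => exact @Subsingleton.elim _ (T.line_zero X) x 0
    | m + 1, x, hx =>
      obtain ⟨φ, hφ⟩ := T.line_iso X (2 * m)
      obtain ⟨y, rfl⟩ := φ.surjective x
      have : GE (T.F X (2 * m)) (qq k K ^ m) y := by
        refine GE_scale (T.F X (2 * m)) (T.F (line X) (2 * m + 2)) φ (qq k K) _ qq_ne hφ y ?_
        have hx' := hx
        unfold IsE at hx'
        rw [pow_succ'] at hx'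
        exact hx'
      rw [hb m (by omega) y this, map_zero]

/-- Cohomology of cells. -/
theorem cell_GE {e : ℕ} {U : Sch k} (h : Cell e U) :
    (∀ i m : ℕ, i < 2 * m → ∀ x : T.H U i, IsE T m x → x = 0) ∧
    (∀ m : ℕ, m ≠ e → ∀ x : T.H U (2 * m), IsE T m x → x = 0) := by
  induction h with
  | point X hX =>
    constructor
    · intro i m him x hx
      match i, x, hx with
      | 0, x, hx =>
        exact GE_of_scalar (T.F X 0) (qq k K ^ m) 1 (qq_pow_ne_one m (by omega))
          (fun y => by rw [T.point_F X y hX, one_smul]) x hx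
      | i + 1, x, _ => exact @Subsingleton.elim _ (T.point_pos X i hX) x 0
    · intro m hm x hx
      match m, x, hx with
      | m + 1, x, _ => exact @Subsingleton.elim _ (T.point_pos X (2 * m + 1) hX) x 0
  | line d X Y hX he ih =>
    obtain ⟨e⟩ := he
    have := hX.isVar
    obtain ⟨h1, h2⟩ := line_GE T X d ih.1 ih.2
    constructor
    · intro i m him y hy
      apply pull_iso_inj T e i y
      apply h1 i m him
      exact GE.map _ (fun z => T.pull_F _ _ _ z) hy
    · intro m hm y hy
      apply pull_iso_inj T e _ y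
      apply h2 m hm
      exact GE.map _ (fun z => T.pull_F _ _ _ z) hy
  | torus d X U s j hX hs hc ih =>
    have := hX.isVar
    have hXfin : ∀ i, FiniteDimensional K (T.H X i) := fun i => T.finite X i
    obtain ⟨h1, h2⟩ := line_GE T X d ih.1 ih.2
    constructor
    · intro i m him x hx
      have h3 : T.push j hc.opn i x = 0 :=
        h1 i m him _ (GE.map _ (fun z => T.push_F _ _ _ z) hx)
      match i, x, hx, h3 with
      | 0, x, _, h3 => exact T.exact_zero s j hc x h3
      | i + 1, x, hx, h3 =>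
        obtain ⟨z, hz⟩ := T.exact_open s j hc i x h3
        obtain ⟨z', hz1, hz2⟩ := GE.lift (f := T.F X i) (g := T.F U (i + 1)) (T.bd s j hc i)
          (fun z => T.bd_F s j hc i z) hx hz
        rw [← hz2, ih.1 i m (by omega) z' hz1, map_zero]
    · intro m hm x hx
      have h3 : T.push j hc.opn (2 * m) x = 0 :=
        h2 m hm _ (GE.map _ (fun z => T.push_F _ _ _ z) hx)
      match m, x, hx, h3 with
      | 0, x, _, h3 => exact T.exact_zero s j hc x h3
      | m + 1, x, hx, h3 =>
        obtain ⟨z, hz⟩ := T.exact_open s j hc (2 * m + 1) x h3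
        obtain ⟨z', hz1, hz2⟩ := GE.lift (f := T.F X (2 * m + 1)) (g := T.F U (2 * m + 1 + 1))
          (T.bd s j hc (2 * m + 1)) (fun z => T.bd_F s j hc (2 * m + 1) z) hx hz
        rw [← hz2, ih.1 (2 * m + 1) (m + 1) (by omega) z' hz1, map_zero]

theorem IsE.sub_eigen {X : Sch k} {i m : ℕ} {x : T.H X i} (hx : IsE T m x) :
    IsE T m (T.F X i x - qq k K ^ m • x) := by
  obtain ⟨r, hr⟩ := hx
  refine ⟨r, ?_⟩
  have : T.F X i x - qq k K ^ m • x =
      (T.F X i - qq k K ^ m • (1 : Module.End K (T.H X i))) x := by simp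
  rw [this, ← Module.End.mul_apply, ← pow_succ, pow_succ', Module.End.mul_apply, hr, map_zero]

theorem linear_scalar_aux {Q : Sch k} (hQ : Linear Q) : IsVar Q → ∀ (m : ℕ)
    (x : T.H Q (2 * m)), IsE T m x → T.F Q (2 * m) x = qq k K ^ m • x := by
  induction hQ with
  | empty X hX =>
    intro _ m x _
    exact @Subsingleton.elim _ (T.empty X (2 * m) hX) _ _
  | step e Z X U i j hc hZ hU ih =>
    intro hXvar m x hx
    have hcl := hc.closed
    have hZvar : IsVar Z := isVar_of_closed i hcl
    have hi : IsProper i.left := inferInstance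
    have hUvar : IsVar U := hU.isVar
    have hUfin : FiniteDimensional K (T.H U (2 * m)) := T.finite U _
    set y := T.F X (2 * m) x - qq k K ^ m • x with hy
    have hyE : IsE T m y := hx.sub_eigen
    have hyZ : T.pull i hi (2 * m) y = 0 := by
      rw [hy, map_sub, T.pull_F, map_smul,
        ih hZvar m _ (GE.map (f := T.F X (2 * m)) (g := T.F Z (2 * m)) (T.pull i hi (2 * m))
          (fun z => T.pull_F i hi _ z) hx), sub_self]
    obtain ⟨u, hu⟩ := T.exact_mid i j hc hi (2 * m) y hyZ
    obtain ⟨u', hu1, hu2⟩ := GE.lift (f := T.F U (2 * m)) (g := T.F X (2 * m))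
      (T.push j hc.opn (2 * m)) (fun z => T.push_F j hc.opn _ z) hyE hu
    have hy0 : y = 0 := by
      by_cases hme : m = e
      · subst hme
        obtain ⟨tr, htr1, htr2⟩ := T.trace j hc.opn m hU
        have : u' = 0 := by
          apply htr2
          rw [hu2, hy, map_sub, htr1, map_smul, smul_eq_mul, sub_self]
        rw [← hu2, this, map_zero]
      · rw [← hu2, (cell_GE T hU).2 m hme u' hu1, map_zero]
    exact sub_eq_zero.1 hy0

/-- The detection lemma: on a linear variety, Frobenius is the scalar `q^m` on its generalised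
`q^m`-eigenspace in `H_c^(2m)`. -/
theorem linear_scalar {Q : Sch k} (hQ : Linear Q) [h : IsVar Q] (m N : ℕ) (hN : N = 2 * m)
    (x : T.H Q N) (hx : IsE T m x) : T.F Q N x = qq k K ^ m • x := by
  subst hN
  exact linear_scalar_aux T hQ h m x hx

end Pool.Agent.LibDL68.Old
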